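import Pool.Agent.H609.EN.Stm

/-!
# Task DIG3: the digits, general denominators
-/

set_option autoImplicit false

namespace Pool.Agent.H609.EN

open Finset
open Pool.Agent.H609.XP (Er)

namespace P_DIG3

open Pool.Agent.H609.XP

/-- `U` is coprime to `P` -/
lemma U_cop {P b : ℕ} (hbP : IsCoprime (b : ℤ) (P : ℤ)) (f : ℕ → ℤ)
    (h0 : IsCoprime (f 0) (P : ℤ)) (hk : ∀ k, 1 ≤ k → (P : ℤ) ∣ f k) (n κ : ℕ) :
    IsCoprime (U f b n κ) (P : ℤ) := by
  unfold U
  rw [sum_range_succ']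
  have h1 : (P : ℤ) ∣ ∑ l ∈ range κ, f (l + 1) * ((b : ℤ) ^ n) ^ (κ - (l + 1)) :=
    dvd_sum fun l _ => Dvd.dvd.mul_right (hk _ (by omega)) _
  obtain ⟨w, hw⟩ := h1
  rw [hw]
  have h2 : IsCoprime (f 0 * ((b : ℤ) ^ n) ^ (κ - 0)) (P : ℤ) :=
    h0.mul_left ((hbP.pow_left).pow_left)
  rw [add_comm]
  exact h2.add_mul_left_left w

/-- `L / R ≤ A L / q`, `R = q / gcd q A` -/
lemma div_R {q A : ℕ} (hq : 1 ≤ q) (hA : 1 ≤ A) (L : ℝ) (hL : 0 ≤ L) :
    L / ((q / Nat.gcd q A : ℕ) : ℝ) ≤ A * (L / (q : ℝ)) := by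
  have hg : 0 < Nat.gcd q A := Nat.gcd_pos_of_pos_left _ hq
  have hgA : Nat.gcd q A ≤ A := Nat.le_of_dvd hA (Nat.gcd_dvd_right q A)
  have hgq : Nat.gcd q A ≤ q := Nat.le_of_dvd hq (Nat.gcd_dvd_left q A)
  have hR : 0 < q / Nat.gcd q A := Nat.div_pos hgq hg
  have e : (q : ℝ) = ((q / Nat.gcd q A : ℕ) : ℝ) * ((Nat.gcd q A : ℕ) : ℝ) := by
    have := Nat.div_mul_cancel (Nat.gcd_dvd_left q A)
    exact_mod_cast this.symm
  set R := q / Nat.gcd q A with hRdef
  set g := Nat.gcd q A with hgdef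
  have hR' : (0 : ℝ) < R := by exact_mod_cast hR
  have hg' : (0 : ℝ) < g := by exact_mod_cast hg
  have hgA' : (g : ℝ) ≤ A := by exact_mod_cast hgA
  rw [e, mul_div_assoc', le_div_iff₀ (by positivity)]
  have h1 : L / (R : ℝ) * ((R : ℝ) * g) = g * L := by field_simp
  rw [h1]
  exact mul_le_mul_of_nonneg_right hgA' hL

end P_DIG3

open P_DIG3 Pool.Agent.H609.XP in
theorem t_DIG3 (h1 : S_RUN3) (h2 : S_ORD3) : S_DIG3 := by
  intro b P hb hP hbP f K hK hf h0 hk
  obtain ⟨E, A, hE, hA, hAu, hord⟩ := h2 b P hb hP hbP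
  have hb0 : (0 : ℝ) < b := by exact_mod_cast (by omega : 0 < b)
  have hbR : (2 : ℝ) ≤ b := by exact_mod_cast hb
  have hKR : (1 : ℝ) ≤ K := by exact_mod_cast hK
  have hAR : (1 : ℝ) ≤ A := by exact_mod_cast hA
  have hER : (1 : ℝ) ≤ E := by exact_mod_cast hE
  have hbPZ : IsCoprime (b : ℤ) (P : ℤ) := Nat.isCoprime_iff_coprime.2 hbP
  set u : ℤ := (b : ℤ) ^ E with hu
  set C : ℝ := (A : ℝ) * 3 + 2 * (E + 2 * K + 2 + K) with hC
  refine ⟨C, by positivity, fun n hn q k hq hqP y hy0 hy1 s L => ?_⟩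
  have hnpos : 0 < n := by omega
  have hnR : (0 : ℝ) < n := by exact_mod_cast hnpos
  have hqpos : (0 : ℝ) < (q : ℝ) := by exact_mod_cast hq
  have hq1 : (1 : ℝ) ≤ (q : ℝ) := by exact_mod_cast hq
  have hqPZ : (q : ℤ) ∣ (P : ℤ) ^ k := by exact_mod_cast hqP
  have hbq : IsCoprime (b : ℤ) (q : ℤ) := (hbPZ.pow_right).of_isCoprime_of_dvd_right hqPZ
  have huq : IsCoprime u (q : ℤ) := hbq.pow_left
  set S : ℝ := ∑' k, (f k : ℝ) * (((b : ℝ) ^ n)⁻¹) ^ k with hS
  set x : ℕ → ℝ := fun j => (b : ℝ) ^ j * (S / (q : ℝ)) with hx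
  have hL0 : (0 : ℝ) ≤ L := Nat.cast_nonneg _
  have hs0 : (0 : ℝ) ≤ s := Nat.cast_nonneg _
  have hX : 0 ≤ ((q : ℝ) + (s + L) / n) * (L / n + 1) := by positivity
  have hRpos : 0 < q / Nat.gcd q A :=
    Nat.div_pos (Nat.le_of_dvd hq (Nat.gcd_dvd_left q A)) (Nat.gcd_pos_of_pos_left _ hq)
  have hRq : q / Nat.gcd q A ≤ q := Nat.div_le_self _ _
  have hdivR := div_R hq hA (L : ℝ) hL0
  have hrun0 := h1 q A u hq hA hAu huq (fun m hm h => hord q k m hqP hm h)
  set R := q / Nat.gcd q A with hR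
  set T := E * R with hT
  have hTpos : 0 < T := Nat.mul_pos hE hRpos
  set N := s + L with hN
  set G := K * (N / n + 2) + 2 with hG
  have h2K : 2 * (K : ℝ) ≤ (b : ℝ) ^ n := by
    calc 2 * (K : ℝ) ≤ 2 * 2 ^ K := by
          have : (K : ℝ) < 2 ^ K := by exact_mod_cast Nat.lt_two_pow_self
          linarith
      _ = 2 ^ (K + 1) := by ring
      _ ≤ (b : ℝ) ^ (K + 1) := pow_le_pow_left₀ (by norm_num) hbR _
      _ ≤ _ := pow_le_pow_right₀ (by linarith) hn
  have hmain := Er_all x hy0 hy1 hTpos (3 * E) (by positivity) n G N hnpos (by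
    intro κ s' hs1 hs2 hs3
    have hκ : κ ≤ N / n := by
      rw [Nat.le_div_iff_mul_le hnpos, mul_comm]
      omega
    have hlocal := Er_run x y s' E R (by
      intro i hi
      set V : ℤ := (b : ℤ) ^ (s' + i - n * κ) * U f b n κ with hV
      have hVq : IsCoprime V (q : ℤ) := by
        rw [hV]
        refine IsCoprime.mul_left hbq.pow_left ?_
        exact ((U_cop hbPZ f h0 hk n κ).pow_right).of_isCoprime_of_dvd_right hqPZ
      exact hrun0 V hVq (fun m => x (s' + (i + E * m))) (by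
        intro m hm
        have hj : i + E * m < T := by
          rw [hT]
          calc i + E * m < E + E * m := by omega
            _ = E * (m + 1) := by ring
            _ ≤ E * R := Nat.mul_le_mul_left _ hm
        obtain ⟨e, he⟩ : ∃ e, s' + (i + E * m) = n * κ + e := ⟨s' + (i + E * m) - n * κ, by omega⟩
        have heG : e + G ≤ n := by omega
        have h1 : V * u ^ m = (b : ℤ) ^ e * U f b n κ := by
          rw [hV, hu]
          have h2 : s' + i - n * κ + E * m = e := by omega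
          rw [← h2, pow_add, pow_mul]
          ring
        have h3 : x (s' + (i + E * m)) - ((V * u ^ m : ℤ) : ℝ) / (q : ℝ) =
            (b : ℝ) ^ e * ((b : ℝ) ^ (n * κ) * S - U f b n κ) / (q : ℝ) := by
          rw [h1, hx]
          simp only
          rw [he, pow_add]
          push_cast
          ring
        rw [h3, abs_div, abs_mul, abs_of_pos hqpos, abs_of_pos (by positivity)]
        have h4 := U_approx hb f (by positivity : (0 : ℝ) ≤ K) hf h2K κ
        rw [← hS] at h4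
        have h5 : (b : ℝ) ^ e * |(b : ℝ) ^ (n * κ) * S - U f b n κ| ≤ 1 / 2 := by
          calc (b : ℝ) ^ e * |(b : ℝ) ^ (n * κ) * S - U f b n κ| ≤
              (b : ℝ) ^ e * (2 * (K : ℝ) ^ (κ + 2) * ((b : ℝ) ^ n)⁻¹) :=
                mul_le_mul_of_nonneg_left h4 (by positivity)
            _ = 2 * (K : ℝ) ^ (κ + 2) * ((b : ℝ) ^ e * ((b : ℝ) ^ n)⁻¹) := by ring
            _ ≤ 2 * (K : ℝ) ^ (κ + 2) * ((b : ℝ) ^ G)⁻¹ := by
                apply mul_le_mul_of_nonneg_left _ (by positivity)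
                rw [← div_eq_mul_inv, div_le_iff₀ (by positivity), ← div_eq_inv_mul,
                  le_div_iff₀ (by positivity), ← pow_add]
                exact pow_le_pow_right₀ (by linarith) heG
            _ ≤ 1 / 2 := by
                rw [← div_eq_mul_inv, div_le_iff₀ (by positivity)]
                have h6 : (K : ℝ) ^ (κ + 2) ≤ (2 : ℝ) ^ (K * (N / n + 2)) := by
                  calc (K : ℝ) ^ (κ + 2) ≤ (2 ^ K : ℝ) ^ (κ + 2) := by
                        apply pow_le_pow_left₀ (by positivity)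
                        exact_mod_cast (Nat.lt_two_pow_self (n := K)).le
                    _ = (2 : ℝ) ^ (K * (κ + 2)) := by rw [← pow_mul]
                    _ ≤ _ := pow_le_pow_right₀ (by norm_num) (Nat.mul_le_mul_left _ (by omega))
                have h7 : (2 : ℝ) ^ (K * (N / n + 2)) * 4 ≤ (b : ℝ) ^ G := by
                  calc (2 : ℝ) ^ (K * (N / n + 2)) * 4 = 2 ^ G := by
                        rw [hG, pow_add]
                        norm_num
                    _ ≤ _ := pow_le_pow_left₀ (by norm_num) hbR _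
                linarith
        calc (b : ℝ) ^ e * |(b : ℝ) ^ (n * κ) * S - U f b n κ| / (q : ℝ) ≤
            (1 / 2) / (q : ℝ) := div_le_div_of_nonneg_right h5 hqpos.le
          _ = _ := by field_simp) y hy0 hy1)
    exact hlocal) s L le_rfl
  refine hmain.trans ?_
  have hPle : ((R : ℕ) : ℝ) ≤ (q : ℝ) := by exact_mod_cast hRq
  have hPR0 : (0 : ℝ) < R := by exact_mod_cast hRpos
  have hTR : ((T : ℕ) : ℝ) = E * R := by rw [hT]; push_cast; ring
  have hterm1 : 3 * (E : ℝ) * (L / T) ≤ (A : ℝ) * 3 * (L / (q : ℝ)) := by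
    rw [hTR]
    have h8 : 3 * (E : ℝ) * (L / (E * R)) = 3 * (L / R) := by field_simp
    rw [h8]
    linarith
  have hdiv : ((N / n : ℕ) : ℝ) ≤ (s + L) / n := by
    have h9 := @Nat.cast_div_le ℝ _ _ _ N n
    refine h9.trans (le_of_eq ?_)
    rw [hN]
    push_cast
    ring
  have hGR : ((G : ℕ) : ℝ) ≤ K * ((s + L) / n) + (2 * K + 2) := by
    rw [hG]
    push_cast
    have := mul_le_mul_of_nonneg_left hdiv (by positivity : (0 : ℝ) ≤ K)
    linarith
  have hTG : (T : ℝ) + G ≤ (E + 2 * K + 2 + K) * ((q : ℝ) + (s + L) / n) := by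
    have h10 : (T : ℝ) ≤ E * (q : ℝ) := by
      rw [hTR]
      exact mul_le_mul_of_nonneg_left hPle (by positivity)
    have h11 : (0 : ℝ) ≤ (s + L) / n := by positivity
    have h12 : (2 * (K : ℝ) + 2) ≤ (2 * K + 2) * (q : ℝ) := by nlinarith
    have h13 : (0 : ℝ) ≤ (E + 2 * K + 2) * ((s + L) / n) := by positivity
    have h14 : (0 : ℝ) ≤ K * (q : ℝ) := by positivity
    nlinarith
  have hLn : (L : ℝ) / n + 2 ≤ 2 * (L / n + 1) := by
    have : (0 : ℝ) ≤ L / n := by positivity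
    linarith
  have hterm2 : ((T : ℝ) + G) * (L / n + 2) ≤
      2 * (E + 2 * K + 2 + K) * (((q : ℝ) + (s + L) / n) * (L / n + 1)) := by
    calc ((T : ℝ) + G) * (L / n + 2) ≤
        ((E + 2 * K + 2 + K) * ((q : ℝ) + (s + L) / n)) * (2 * (L / n + 1)) :=
          mul_le_mul hTG hLn (by positivity) (by positivity)
      _ = _ := by ring
  have hD : (0 : ℝ) ≤ 2 * (E + 2 * K + 2 + K) := by positivity
  calc 3 * (E : ℝ) * (L / T) + ((T : ℝ) + G) * (L / n + 2) ≤
      (A : ℝ) * 3 * (L / (q : ℝ)) + 2 * (E + 2 * K + 2 + K) *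
        (((q : ℝ) + (s + L) / n) * (L / n + 1)) := by linarith
    _ ≤ C * (L / (q : ℝ)) + C * (((q : ℝ) + (s + L) / n) * (L / n + 1)) := by
        apply add_le_add
        · apply mul_le_mul_of_nonneg_right _ (by positivity)
          rw [hC]
          linarith
        · apply mul_le_mul_of_nonneg_right _ hX
          rw [hC]
          have : (0 : ℝ) ≤ (A : ℝ) * 3 := by positivity
          linarith
    _ = _ := by ring

end Pool.Agent.H609.EN
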