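import Pool.Agent.H609.EN.Stm

set_option autoImplicit false

namespace Pool.Agent.H609.EN.P_ORD3

theorem lift {p : ℕ} (hp : p.Prime) {u : ℤ} (hu : (p : ℤ) ∣ u - 1) (hu2 : p = 2 → (4 : ℤ) ∣ u - 1)
    (k m : ℕ) (h : ((p : ℤ) ^ k) ∣ u ^ m - 1) : ((p : ℤ) ^ k) ∣ (u - 1) * m := by
  have hpi : Prime (p : ℤ) := Nat.prime_iff_prime_int.1 hp
  have hpu : ¬ (p : ℤ) ∣ u := by
    intro h1
    have h2 : (p : ℤ) ∣ 1 := by
      have := dvd_sub h1 hu
      simpa using this
    exact hpi.not_isUnit (isUnit_of_dvd_one h2)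
  have key : emultiplicity (p : ℤ) (u ^ m - 1 ^ m) = emultiplicity (p : ℤ) (u - 1) + emultiplicity (p : ℤ) (m : ℤ) := by
    rcases hp.eq_two_or_odd' with h2 | hodd
    · subst h2
      exact Int.two_pow_sub_pow' m (hu2 rfl) hpu
    · have := Int.emultiplicity_pow_sub_pow hp hodd hu hpu m
      rw [this, Int.natCast_emultiplicity]
  rw [one_pow] at key
  rw [pow_dvd_iff_le_emultiplicity] at h ⊢
  rw [emultiplicity_mul hpi, ← key]
  exact h

end Pool.Agent.H609.EN.P_ORD3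

namespace Pool.Agent.H609.EN

theorem t_ORD3 : S_ORD3 := by
  intro b P hb hP hbP
  have hφ : 0 < P.totient := Nat.totient_pos.2 hP
  have hE : 1 ≤ 2 * P.totient := by omega
  have hpow : 1 ≤ b ^ (2 * P.totient) - 1 := by
    have h1 : b ^ 1 ≤ b ^ (2 * P.totient) := Nat.pow_le_pow_right (by omega) hE
    rw [pow_one] at h1
    omega
  have hcast : ((b ^ (2 * P.totient) - 1 : ℕ) : ℤ) = (b : ℤ) ^ (2 * P.totient) - 1 := by
    rw [Nat.cast_sub (by omega)]
    push_cast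
    ring
  refine ⟨2 * P.totient, b ^ (2 * P.totient) - 1, hE, hpow, ?_, ?_⟩
  · rw [hcast]
  · intro q k m hq hm h
    rw [Nat.dvd_iff_prime_pow_dvd_dvd]
    intro p j hp hpj
    rcases Nat.eq_zero_or_pos j with rfl | hj
    · simp
    have hpq : p ∣ q := (dvd_pow_self p (by omega)).trans hpj
    have hpP : p ∣ P := hp.dvd_of_dvd_pow (hpq.trans hq)
    have hPu : (P : ℤ) ∣ (b : ℤ) ^ (2 * P.totient) - 1 := by
      have h1 := Nat.ModEq.pow_totient hbP
      have h2 : b ^ (2 * P.totient) ≡ 1 [MOD P] := by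
        have := h1.pow 2
        rw [← pow_mul, one_pow, mul_comm] at this
        exact this
      have h3 := (Nat.modEq_iff_dvd.1 h2.symm)
      push_cast at h3
      exact h3
    have hpu : (p : ℤ) ∣ (b : ℤ) ^ (2 * P.totient) - 1 :=
      (Int.natCast_dvd_natCast.2 hpP).trans hPu
    have h4 : p = 2 → (4 : ℤ) ∣ (b : ℤ) ^ (2 * P.totient) - 1 := by
      rintro rfl
      have hbo : ¬ 2 ∣ b := by
        intro h5
        have h6 : (2 : ℕ) ∣ 1 := by
          have := Nat.dvd_gcd h5 hpP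
          rwa [hbP] at this
        omega
      have h7 : (4 : ℤ) ∣ (b : ℤ) ^ 2 - 1 := by
        obtain ⟨c, hc⟩ : ∃ c : ℤ, (b : ℤ) = 2 * c + 1 := ⟨(b / 2 : ℕ), by
          push_cast
          omega⟩
        rw [hc]
        exact ⟨c ^ 2 + c, by ring⟩
      refine h7.trans ?_
      rw [pow_mul]
      have := sub_dvd_pow_sub_pow ((b : ℤ) ^ 2) 1 P.totient
      rwa [one_pow] at this
    have h8 : ((p : ℤ) ^ j) ∣ ((b : ℤ) ^ (2 * P.totient)) ^ m - 1 := by
      have : ((p ^ j : ℕ) : ℤ) ∣ (q : ℤ) := Int.natCast_dvd_natCast.2 hpj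
      rw [Nat.cast_pow] at this
      exact this.trans h
    have h9 := P_ORD3.lift hp hpu h4 j m h8
    have h10 : ((p ^ j : ℕ) : ℤ) ∣ (((b ^ (2 * P.totient) - 1) * m : ℕ) : ℤ) := by
      rw [Nat.cast_mul, hcast, Nat.cast_pow]
      exact h9
    exact Int.natCast_dvd_natCast.1 h10

end Pool.Agent.H609.EN
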