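import Pool.Agent.H609.EN.Stm

/-!
# The powers of `u` modulo `q`, over a full period (helper122; edit of `XP/Count.lean`)
-/

set_option autoImplicit false

namespace Pool.Agent.H609.EN

open Finset

namespace P_RUN3

/-- different exponents below the period give different residues -/
lemma pow_inj {q A : ℕ} {u : ℤ} (hq : 1 ≤ q) (hu : IsCoprime u (q : ℤ))
    (hord : ∀ m : ℕ, 1 ≤ m → (q : ℤ) ∣ u ^ m - 1 → q ∣ A * m) {V : ℤ} (hV : IsCoprime V (q : ℤ))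
    {i j : ℕ} (hi : i < q / Nat.gcd q A) (hij : j < i) (h : (q : ℤ) ∣ V * u ^ i - V * u ^ j) :
    False := by
  obtain ⟨δ, rfl⟩ : ∃ δ, i = j + δ := ⟨i - j, by omega⟩
  have hδ : 1 ≤ δ := by omega
  have h1 : (q : ℤ) ∣ u ^ δ - 1 := by
    have h2 : V * u ^ (j + δ) - V * u ^ j = (V * u ^ j) * (u ^ δ - 1) := by rw [pow_add]; ring
    rw [h2] at h
    have h3 : IsCoprime (q : ℤ) (V * u ^ j) := (hV.mul_left hu.pow_left).symm
    exact h3.dvd_of_dvd_mul_left h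
  have h2 := hord δ hδ h1
  have hg : 0 < Nat.gcd q A := Nat.gcd_pos_of_pos_left _ hq
  obtain ⟨q', hq'⟩ := Nat.gcd_dvd_left q A
  obtain ⟨A', hA'⟩ := Nat.gcd_dvd_right q A
  have h3 : q / Nat.gcd q A = q' := Nat.div_eq_of_eq_mul_right hg hq'
  have h4 : A / Nat.gcd q A = A' := Nat.div_eq_of_eq_mul_right hg hA'
  have h5 : Nat.Coprime q' A' := by
    have := Nat.coprime_div_gcd_div_gcd hg
    rwa [h3, h4] at this
  have h6 : q' ∣ A' * δ := by
    have h7 : Nat.gcd q A * q' ∣ Nat.gcd q A * (A' * δ) := by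
      rw [← hq', ← mul_assoc, ← hA']
      exact h2
    exact Nat.dvd_of_mul_dvd_mul_left hg h7
  have h7 : q' ∣ δ := h5.dvd_of_dvd_mul_left h6
  have h8 := Nat.le_of_dvd (by omega) h7
  omega

end P_RUN3

open P_RUN3 in
/-- **A run over a full period is equidistributed**, also after a small perturbation. -/
theorem t_RUN3 : S_RUN3 := by
  classical
  intro q A u hq hA hAu hu hord V hV c hc y hy0 hy1
  have hqR : (0 : ℝ) < q := by exact_mod_cast hq
  have hpr : (0 : ℝ) < (q : ℝ) := hqR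
  have hprZ : (0 : ℤ) < (q : ℤ) := by exact_mod_cast hq
  obtain ⟨P, hP⟩ : ∃ P : ℕ, P = q / Nat.gcd q A := ⟨_, rfl⟩
  obtain ⟨g, hg⟩ : ∃ g : ℕ, g = Nat.gcd q A := ⟨_, rfl⟩
  have hg0 : 1 ≤ g := by rw [hg]; exact Nat.gcd_pos_of_pos_left _ hq
  have hgR : (0 : ℝ) < (g : ℝ) := by exact_mod_cast hg0
  have hqgP : q = g * P := by
    rw [hP, hg]
    exact (Nat.mul_div_cancel' (Nat.gcd_dvd_left q A)).symm
  have hginj := @pow_inj q A u hq hu hord V hV
  rw [← hP] at hc hginj ⊢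
  rcases Nat.eq_or_lt_of_le hq with h1 | hq2
  · -- `q = 1`
    have hP1 : P ≤ 1 := by
      rw [hP, ← h1]
      exact Nat.div_le_self _ _
    have h2 : ({m ∈ range P | Int.fract (c m) < y} : Finset ℕ).card ≤ 1 :=
      (card_filter_le _ _).trans (by rw [card_range]; exact hP1)
    have h3 : ((({m ∈ range P | Int.fract (c m) < y} : Finset ℕ).card : ℕ) : ℝ) ≤ 1 := by
      exact_mod_cast h2
    have h4 : (0 : ℝ) ≤ ((({m ∈ range P | Int.fract (c m) < y} : Finset ℕ).card : ℕ) : ℝ) :=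
      Nat.cast_nonneg _
    have h5 : (P : ℝ) * y ≤ 1 := by
      have h6 : (P : ℝ) ≤ 1 := by exact_mod_cast hP1
      have h7 : (0 : ℝ) ≤ P := Nat.cast_nonneg _
      nlinarith
    have h6 : 0 ≤ (P : ℝ) * y := by positivity
    rw [abs_le]
    constructor <;> linarith
  set Q : ℤ := (q : ℤ) with hQ
  have hQR : ((Q : ℤ) : ℝ) = (q : ℝ) := by rw [hQ]; push_cast; rfl
  set ρ : ℕ → ℤ := fun m => (V * u ^ m) % Q with hρ
  have hρ0 : ∀ m, 0 ≤ ρ m := fun m => Int.emod_nonneg _ hprZ.ne'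
  have hρQ : ∀ m, ρ m < Q := fun m => Int.emod_lt_of_pos _ hprZ
  have hρ1 : ∀ m, 1 ≤ ρ m := by
    intro m
    rcases (hρ0 m).lt_or_eq with h | h
    · exact h
    · exfalso
      have h1 : Q ∣ V * u ^ m := Int.dvd_of_emod_eq_zero h.symm
      have h2 : IsCoprime (V * u ^ m) Q := hV.mul_left hu.pow_left
      have h3 : IsUnit Q := h2.isUnit_of_dvd' h1 dvd_rfl
      rcases Int.isUnit_iff.1 h3 with h4 | h4 <;> omega
  have hρinj : Set.InjOn ρ (range P : Finset ℕ) := by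
    intro i hi j hj hij
    rw [coe_range, Set.mem_Iio] at hi hj
    have h1 : (V * u ^ i) ≡ (V * u ^ j) [ZMOD Q] := hij
    have h2 : Q ∣ V * u ^ i - V * u ^ j := Int.ModEq.dvd h1.symm
    rcases lt_trichotomy i j with h | h | h
    · exfalso
      refine hginj hj h ?_
      rw [← neg_sub]
      exact (dvd_neg).2 h2
    · exact h
    · exact (hginj hi h h2).elim
  set S : Finset ℤ := {x ∈ Ico (0 : ℤ) Q | x ≡ V [ZMOD (g : ℤ)]} with hS
  have hpa : (0 : ℤ) < (g : ℤ) := by exact_mod_cast hg0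
  have hgA : (g : ℤ) ∣ (A : ℤ) := by
    rw [hg]
    exact_mod_cast Nat.gcd_dvd_right q A
  have hgQ : (g : ℤ) ∣ Q := by
    rw [hQ, hg]
    exact_mod_cast Nat.gcd_dvd_left q A
  have hup : ∀ m : ℕ, u ^ m ≡ 1 [ZMOD (g : ℤ)] := by
    intro m
    have h1 : u ≡ 1 [ZMOD (g : ℤ)] := (Int.modEq_iff_dvd.2 (hgA.trans hAu)).symm
    simpa using h1.pow m
  have hsub : (range P).image ρ ⊆ S := by
    intro x hx
    rw [mem_image] at hx
    obtain ⟨m, hm, rfl⟩ := hx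
    rw [hS, mem_filter, mem_Ico]
    refine ⟨⟨hρ0 m, hρQ m⟩, ?_⟩
    have h1 : ρ m ≡ V * u ^ m [ZMOD Q] := Int.mod_modEq _ _
    have h2 : ρ m ≡ V * u ^ m [ZMOD (g : ℤ)] := h1.of_dvd hgQ
    refine h2.trans ?_
    simpa using (Int.ModEq.mul_left V (hup m))
  have hcardS : S.card = P := by
    have h1 := Int.Ico_filter_modEq_card (a := 0) (b := Q) hpa V
    rw [← hS] at h1
    have h2 : Q = (g : ℤ) * (P : ℤ) := by
      rw [hQ]
      exact_mod_cast hqgP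
    have h3 : ⌈((Q : ℚ) - (V : ℚ)) / ((g : ℤ) : ℚ)⌉ =
        ⌈(((0 : ℤ) : ℚ) - (V : ℚ)) / ((g : ℤ) : ℚ)⌉ + P := by
      rw [← Int.ceil_add_natCast]
      congr 1
      have h4 : ((g : ℤ) : ℚ) ≠ 0 := by exact_mod_cast hpa.ne'
      rw [h2]
      push_cast at h4 ⊢
      field_simp
      ring
    rw [h3] at h1
    have h5 : max (⌈(((0 : ℤ) : ℚ) - (V : ℚ)) / ((g : ℤ) : ℚ)⌉ + (P : ℤ) -
        ⌈(((0 : ℤ) : ℚ) - (V : ℚ)) / ((g : ℤ) : ℚ)⌉) 0 = P := by
      rw [add_sub_cancel_left]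
      exact max_eq_left (by positivity)
    rw [h5] at h1
    exact_mod_cast h1
  have himg : (range P).image ρ = S := by
    apply eq_of_subset_of_card_le hsub
    rw [hcardS, card_image_of_injOn hρinj, card_range]
  -- counting the residues below `z`
  have hcnt : ∀ z : ℝ, ({m ∈ range P | (ρ m : ℝ) < z} : Finset ℕ).card =
      ({x ∈ S | (x : ℝ) < z} : Finset ℤ).card := by
    intro z
    rw [← himg, filter_image, card_image_of_injOn]
    exact hρinj.mono (by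
      intro x hx
      rw [mem_coe, mem_filter] at hx
      exact hx.1)
  have hPQ : (q : ℝ) / (g : ℝ) = (P : ℝ) := by
    rw [div_eq_iff (by positivity)]
    have : (q : ℝ) = ((g * P : ℕ) : ℝ) := by exact_mod_cast hqgP
    rw [this]
    push_cast
    ring
  have hpa1 : (1 : ℝ) ≤ (g : ℝ) := by exact_mod_cast hg0
  have hlow : ∀ z : ℝ, z ≤ (q : ℝ) → z / (g : ℝ) - 2 ≤
      ((({m ∈ range P | (ρ m : ℝ) < z} : Finset ℕ).card : ℕ) : ℝ) := by
    intro z hz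
    rcases le_or_gt 0 z with h0 | h0
    · have h1 := (abs_le.1 (Pool.Agent.H609.XP.class_count g hg0 V z h0)).1
      have h2 : ({x ∈ Ico (0 : ℤ) ⌈z⌉ | x ≡ V [ZMOD (g : ℤ)]} : Finset ℤ).card ≤
          ({x ∈ S | (x : ℝ) < z} : Finset ℤ).card := by
        apply card_le_card
        intro x hx
        rw [mem_filter, mem_Ico] at hx
        rw [mem_filter, hS, mem_filter, mem_Ico]
        have h3 : (x : ℝ) < z := Int.lt_ceil.1 hx.1.2
        refine ⟨⟨⟨hx.1.1, ?_⟩, hx.2⟩, h3⟩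
        have h4 : (x : ℝ) < ((Q : ℤ) : ℝ) := by rw [hQR]; linarith
        exact_mod_cast h4
      rw [hcnt z]
      have h3 : ((({x ∈ Ico (0 : ℤ) ⌈z⌉ | x ≡ V [ZMOD (g : ℤ)]} : Finset ℤ).card : ℕ) : ℝ) ≤
          ((({x ∈ S | (x : ℝ) < z} : Finset ℤ).card : ℕ) : ℝ) := by exact_mod_cast h2
      linarith
    · have h1 : z / (g : ℝ) ≤ 0 := div_nonpos_of_nonpos_of_nonneg h0.le (by positivity)
      have h2 : (0 : ℝ) ≤ ((({m ∈ range P | (ρ m : ℝ) < z} : Finset ℕ).card : ℕ) : ℝ) :=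
        Nat.cast_nonneg _
      linarith
  have hupp : ∀ z : ℝ, 0 ≤ z →
      ((({m ∈ range P | (ρ m : ℝ) < z} : Finset ℕ).card : ℕ) : ℝ) ≤ z / (g : ℝ) + 2 := by
    intro z h0
    have h1 := (abs_le.1 (Pool.Agent.H609.XP.class_count g hg0 V z h0)).2
    have h2 : ({x ∈ S | (x : ℝ) < z} : Finset ℤ).card ≤
        ({x ∈ Ico (0 : ℤ) ⌈z⌉ | x ≡ V [ZMOD (g : ℤ)]} : Finset ℤ).card := by
      apply card_le_card
      intro x hx
      rw [mem_filter, hS, mem_filter, mem_Ico] at hx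
      rw [mem_filter, mem_Ico]
      exact ⟨⟨hx.1.1.1, Int.lt_ceil.2 hx.2⟩, hx.1.2⟩
    rw [hcnt z]
    have h3 : ((({x ∈ S | (x : ℝ) < z} : Finset ℤ).card : ℕ) : ℝ) ≤
        ((({x ∈ Ico (0 : ℤ) ⌈z⌉ | x ≡ V [ZMOD (g : ℤ)]} : Finset ℤ).card : ℕ) : ℝ) := by
      exact_mod_cast h2
    linarith
  -- the fractional parts
  have hfr : ∀ m < P, |Int.fract (c m) - (ρ m : ℝ) / (q : ℝ)| ≤ 1 / (2 * (q : ℝ)) := by
    intro m hm
    have h1 := hc m hm
    have h2 : V * u ^ m = Q * ((V * u ^ m) / Q) + ρ m := (Int.mul_ediv_add_emod _ _).symm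
    have h3 : ((V * u ^ m : ℤ) : ℝ) / (q : ℝ) = (((V * u ^ m) / Q : ℤ) : ℝ) +
        (ρ m : ℝ) / (q : ℝ) := by
      have h4 : ((V * u ^ m : ℤ) : ℝ) = (q : ℝ) * (((V * u ^ m) / Q : ℤ) : ℝ) + ρ m := by
        rw [← hQR]
        exact_mod_cast h2
      rw [h4]
      field_simp
    rw [h3] at h1
    set k : ℤ := (V * u ^ m) / Q with hk
    have h5 : (1 : ℝ) ≤ ρ m := by exact_mod_cast hρ1 m
    have h6 : (ρ m : ℝ) ≤ (q : ℝ) - 1 := by
      have := hρQ m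
      have h7 : ((ρ m : ℤ) : ℝ) ≤ ((Q - 1 : ℤ) : ℝ) := by exact_mod_cast (by omega : ρ m ≤ Q - 1)
      push_cast at h7
      rw [hQR] at h7
      exact h7
    have h8 : 1 / (2 * (q : ℝ)) = (1 / 2) / (q : ℝ) := by field_simp
    have h9 : (1 : ℝ) / (q : ℝ) ≤ (ρ m : ℝ) / (q : ℝ) :=
      div_le_div_of_nonneg_right h5 hpr.le
    have h10 : (ρ m : ℝ) / (q : ℝ) ≤ 1 - 1 / (q : ℝ) := by
      have h10' : (1 : ℝ) - 1 / (q : ℝ) = ((q : ℝ) - 1) / (q : ℝ) := by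
        rw [sub_div, div_self hpr.ne']
      rw [h10']
      exact div_le_div_of_nonneg_right h6 hpr.le
    have h11 : (1 / 2) / (q : ℝ) < 1 / (q : ℝ) :=
      div_lt_div_of_pos_right (by norm_num) hpr
    rw [h8] at h1 ⊢
    rw [abs_le] at h1
    have hfloor : ⌊c m⌋ = k := by
      rw [Int.floor_eq_iff]
      constructor <;> linarith [h1.1, h1.2]
    have h12 : Int.fract (c m) = c m - k := by rw [← hfloor]; rfl
    rw [h12, abs_le]
    constructor <;> linarith [h1.1, h1.2]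
  have hlt1 : ∀ m < P, Int.fract (c m) < y → (ρ m : ℝ) < (q : ℝ) * y + 1 / 2 := by
    intro m hm h
    have h1 := (abs_le.1 (hfr m hm)).1
    have h2 : (ρ m : ℝ) / (q : ℝ) < y + 1 / (2 * (q : ℝ)) := by linarith
    rw [div_lt_iff₀ hpr] at h2
    have h3 : (y + 1 / (2 * (q : ℝ))) * (q : ℝ) = (q : ℝ) * y + 1 / 2 := by
      field_simp
    rwa [h3] at h2
  have hlt2 : ∀ m < P, (ρ m : ℝ) < (q : ℝ) * y - 1 / 2 → Int.fract (c m) < y := by
    intro m hm h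
    have h1 := (abs_le.1 (hfr m hm)).2
    have h2 : (ρ m : ℝ) / (q : ℝ) < y - 1 / (2 * (q : ℝ)) := by
      rw [div_lt_iff₀ hpr]
      have h3 : (y - 1 / (2 * (q : ℝ))) * (q : ℝ) = (q : ℝ) * y - 1 / 2 := by
        field_simp
      rwa [h3]
    linarith
  have hc1 : ({m ∈ range P | Int.fract (c m) < y} : Finset ℕ).card ≤
      ({m ∈ range P | (ρ m : ℝ) < (q : ℝ) * y + 1 / 2} : Finset ℕ).card := by
    apply card_le_card
    intro m hm
    rw [mem_filter, mem_range] at hm ⊢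
    exact ⟨hm.1, hlt1 m hm.1 hm.2⟩
  have hc2 : ({m ∈ range P | (ρ m : ℝ) < (q : ℝ) * y - 1 / 2} : Finset ℕ).card ≤
      ({m ∈ range P | Int.fract (c m) < y} : Finset ℕ).card := by
    apply card_le_card
    intro m hm
    rw [mem_filter, mem_range] at hm ⊢
    exact ⟨hm.1, hlt2 m hm.1 hm.2⟩
  have hc1' : ((({m ∈ range P | Int.fract (c m) < y} : Finset ℕ).card : ℕ) : ℝ) ≤
      ((({m ∈ range P | (ρ m : ℝ) < (q : ℝ) * y + 1 / 2} : Finset ℕ).card : ℕ) : ℝ) := by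
    exact_mod_cast hc1
  have hc2' : ((({m ∈ range P | (ρ m : ℝ) < (q : ℝ) * y - 1 / 2} : Finset ℕ).card : ℕ) : ℝ) ≤
      ((({m ∈ range P | Int.fract (c m) < y} : Finset ℕ).card : ℕ) : ℝ) := by
    exact_mod_cast hc2
  have hA := hupp ((q : ℝ) * y + 1 / 2) (by positivity)
  have hB := hlow ((q : ℝ) * y - 1 / 2) (by nlinarith)
  have hd1 : ((q : ℝ) * y + 1 / 2) / (g : ℝ) = (P : ℝ) * y +
      (1 / 2) / (g : ℝ) := by
    rw [add_div, mul_div_right_comm, hPQ]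
  have hd2 : ((q : ℝ) * y - 1 / 2) / (g : ℝ) = (P : ℝ) * y -
      (1 / 2) / (g : ℝ) := by
    rw [sub_div, mul_div_right_comm, hPQ]
  have hd3 : (1 / 2) / (g : ℝ) ≤ 1 := by
    rw [div_le_one (by positivity)]
    linarith
  rw [hd1] at hA
  rw [hd2] at hB
  rw [abs_le]
  constructor <;> linarith

end Pool.Agent.H609.EN
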