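import Pool.Agent.H609.EN.Main
import Pool.Agent.H609.EN.P_ORD3
import Pool.Agent.H609.EN.P_RUN3
import Pool.Agent.H609.EN.P_DIG3

set_option autoImplicit false

namespace Pool.Agent.H609.EN

theorem all3 : S_DIG3 := t_DIG3 t_RUN3 t_ORD3

end Pool.Agent.H609.EN
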