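import Pool.Agent.H609.XP.Series

/-!
# Explicit algebraic numbers with equidistributed digits, general denominators: statements

Aim: the theorem `Pool.Agent.H609.XP.digits` (file `Pool/Agent/H609/XP/Series.lean`) with an arbitrary
denominator `q`, all prime factors of which divide `P`, `gcd b P = 1`, in place of `p ^ r`, `p` an odd prime.
-/

set_option autoImplicit false

namespace Pool.Agent.H609.EN

open Finset
open Pool.Agent.H609.XP (Er)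

/-- **ORD3**. Proof. `E = 2 φ(P)`, so `p ∣ b ^ E - 1` for every prime `p ∣ P`, and `8 ∣ b ^ E - 1` if `2 ∣ P`. `A` is
the product of the exact powers of the primes `p ∣ P` in `b ^ E - 1` (e.g. `A = gcd (b ^ E - 1) (P ^ (b ^ E))`).
By lifting the exponent (`Int.emultiplicity_pow_sub_pow`, `padicValNat.pow_sub_pow` for odd `p`;
`Int.two_pow_sub_pow`, `padicValNat.pow_two_sub_pow` or a direct argument for `p = 2`, where `4 ∣ b ^ E - 1`) the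
exact power of `p` in `(b ^ E) ^ m - 1` is that in `b ^ E - 1` plus that in `m`. So `q ∣ (b ^ E) ^ m - 1` implies
`v_p q ≤ v_p A + v_p m` for all `p ∣ P`, and the primes of `q` divide `P`: `q ∣ A m`. -/
def S_ORD3 : Prop := ∀ b P : ℕ, 2 ≤ b → 1 ≤ P → Nat.Coprime b P →
  ∃ E A : ℕ, 1 ≤ E ∧ 1 ≤ A ∧ (A : ℤ) ∣ (b : ℤ) ^ E - 1 ∧
    ∀ q k m : ℕ, q ∣ P ^ k → 1 ≤ m → (q : ℤ) ∣ ((b : ℤ) ^ E) ^ m - 1 → q ∣ A * m

/-- **RUN3**, a generalization of `XP.run` (file `Pool/Agent/H609/XP/Count.lean`, copy its proof). Put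
`g = gcd q A`, `R = q / g`. `ρ m = (V * u ^ m) % q`. If `q ≥ 2` then `1 ≤ ρ m ≤ q - 1` (coprime to `q`); if `q = 1`
then `R = 1` and the claim is trivial (the number is `0` or `1`). The `ρ m`, `m < R`, are distinct:
`V u ^ i ≡ V u ^ j`, `j < i < R`, gives `q ∣ u ^ (i - j) - 1`, so `q ∣ A (i - j)` and `R ∣ i - j`
(`Nat.Coprime.dvd_of_dvd_mul_left`, `q / g` and `A / g` are coprime). All are `≡ V` modulo `g` (`g ∣ A ∣ u - 1`), and
there are `R` residues modulo `q` which are `≡ V` modulo `g`; so they are all of them; `class_count` with the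
modulus `g`. -/
def S_RUN3 : Prop := ∀ (q A : ℕ) (u : ℤ), 1 ≤ q → 1 ≤ A → (A : ℤ) ∣ u - 1 → IsCoprime u (q : ℤ) →
  (∀ m : ℕ, 1 ≤ m → (q : ℤ) ∣ u ^ m - 1 → q ∣ A * m) → ∀ V : ℤ, IsCoprime V (q : ℤ) →
  ∀ c : ℕ → ℝ, (∀ m < q / Nat.gcd q A, |c m - ((V * u ^ m : ℤ) : ℝ) / (q : ℝ)| ≤ 1 / (2 * (q : ℝ))) →
    ∀ y : ℝ, 0 ≤ y → y ≤ 1 →
      |((({m ∈ range (q / Nat.gcd q A) | Int.fract (c m) < y} : Finset ℕ).card : ℕ) : ℝ) -
        ((q / Nat.gcd q A : ℕ) : ℝ) * y| ≤ 3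

/-- **DIG3**: `S_RUN3 → S_ORD3 → S_DIG3`. Adaptation of `XP.digits` (file `Pool/Agent/H609/XP/Series.lean`; `tail`,
`U`, `U_approx` can be cited). `E, A` from `S_ORD3`, `u = b ^ E`, `t = E`, `R = q / gcd q A`, `T = E * R`; no
distinction of small `r` is needed. `U f b n κ ≡ f 0 * b ^ (n κ)` modulo `P`, so it is coprime to `P` and to `q`
(`q ∣ P ^ k`), and `V = b ^ (..) * U f b n κ` is coprime to `q`. `S_RUN3` in place of `run`. The term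
`3 E (L / T) = 3 L gcd q A / q ≤ 3 A (L / q)`, and `T ≤ E q`. `C = 3 A + 2 (E + 2 K + 2 + K)`. -/
def S_DIG3 : Prop := ∀ b P : ℕ, 2 ≤ b → 1 ≤ P → Nat.Coprime b P → ∀ (f : ℕ → ℤ) (K : ℕ), 1 ≤ K →
  (∀ k, |(f k : ℝ)| ≤ (K : ℝ) ^ (k + 1)) → IsCoprime (f 0) (P : ℤ) → (∀ k, 1 ≤ k → (P : ℤ) ∣ f k) →
  ∃ C : ℝ, 0 < C ∧ ∀ n : ℕ, K + 1 ≤ n → ∀ q k : ℕ, 1 ≤ q → q ∣ P ^ k →
    ∀ y : ℝ, 0 ≤ y → y ≤ 1 → ∀ s L : ℕ,
      |Er (fun j => (b : ℝ) ^ j * ((∑' k, (f k : ℝ) * (((b : ℝ) ^ n)⁻¹) ^ k) / (q : ℝ))) y s L|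
        ≤ C * (L / (q : ℝ) + ((q : ℝ) + (s + L) / n) * (L / n + 1))

end Pool.Agent.H609.EN
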