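import Pool.Agent.H609.XP.Roots
import Pool.Agent.H609.EN.Stm

/-!
# Explicit algebraic numbers with equidistributed digits, general denominators
-/

set_option autoImplicit false

namespace Pool.Agent.H609.EN

open Finset PowerSeries
open Pool.Agent.H609.GF (Sm ev evA rel SG_of_alg irr int_rel ev_poly)
open Pool.Agent.H609.XP (Er growth coeff_map' sm two_mul_le_pow poly_facts exists_root tail degree_div)

/-- the discrepancy in all windows -/
def Ctrl (b n : ℕ) (q C α : ℝ) : Prop :=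
  ∀ (s L : ℕ) (u v : ℝ), 0 ≤ u → u ≤ v → v ≤ 1 →
    |((({j ∈ range L | u ≤ Int.fract ((b : ℝ) ^ (s + j) * α) ∧
      Int.fract ((b : ℝ) ^ (s + j) * α) < v} : Finset ℕ).card : ℕ) : ℝ) - (v - u) * L| ≤
      C * (L / q + (q + (s + L) / n) * (L / n + 1))

lemma ctrl_of_Er {b n : ℕ} {q C α : ℝ}
    (h : ∀ y : ℝ, 0 ≤ y → y ≤ 1 → ∀ s L : ℕ, |Er (fun j => (b : ℝ) ^ j * α) y s L| ≤
      C * (L / q + (q + (s + L) / n) * (L / n + 1))) :
    Ctrl b n q (2 * C) α := by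
  classical
  intro s L u v hu huv hv
  have h1 := h u hu (by linarith) s L
  have h2 := h v (by linarith) hv s L
  have h3 : ({j ∈ range L | u ≤ Int.fract ((b : ℝ) ^ (s + j) * α) ∧
      Int.fract ((b : ℝ) ^ (s + j) * α) < v} : Finset ℕ).card +
      ({j ∈ range L | Int.fract ((b : ℝ) ^ (s + j) * α) < u} : Finset ℕ).card =
      ({j ∈ range L | Int.fract ((b : ℝ) ^ (s + j) * α) < v} : Finset ℕ).card := by
    rw [← card_union_of_disjoint]
    · congr 1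
      ext j
      simp only [mem_union, mem_filter, mem_range]
      constructor
      · rintro (⟨h4, h5, h6⟩ | ⟨h4, h5⟩)
        · exact ⟨h4, h6⟩
        · exact ⟨h4, lt_of_lt_of_le h5 huv⟩
      · rintro ⟨h4, h5⟩
        rcases lt_or_ge (Int.fract ((b : ℝ) ^ (s + j) * α)) u with h6 | h6
        · exact Or.inr ⟨h4, h6⟩
        · exact Or.inl ⟨h4, h6, h5⟩
    · rw [disjoint_left]
      intro j hj hj'
      rw [mem_filter] at hj hj'
      exact absurd hj'.2 (not_lt.2 hj.2.1)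
  have h4 : ((({j ∈ range L | u ≤ Int.fract ((b : ℝ) ^ (s + j) * α) ∧
      Int.fract ((b : ℝ) ^ (s + j) * α) < v} : Finset ℕ).card : ℕ) : ℝ) - (v - u) * L =
      Er (fun j => (b : ℝ) ^ j * α) v s L - Er (fun j => (b : ℝ) ^ j * α) u s L := by
    unfold Er
    rw [← h3]
    push_cast
    ring
  rw [h4]
  have h5 := abs_sub (Er (fun j => (b : ℝ) ^ j * α) v s L) (Er (fun j => (b : ℝ) ^ j * α) u s L)
  linarith

/-- **The general theorem.** -/
theorem general (h3 : S_DIG3) (F : ℤ⟦X⟧) (hF : IsAlgebraic (Polynomial ℚ) (F.map (Int.castRingHom ℚ)))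
    (hr : ∀ P Q : Polynomial ℚ, (Q : ℚ⟦X⟧) * F.map (Int.castRingHom ℚ) = (P : ℚ⟦X⟧) → Q = 0)
    {b : ℕ} (hb : 2 ≤ b) {P : ℕ} (hP : 1 ≤ P) (hbP : Nat.Coprime b P)
    (h0 : IsCoprime (coeff 0 F) (P : ℤ)) (hk : ∀ k, 1 ≤ k → (P : ℤ) ∣ coeff k F) :
    ∃ A : ℕ, ∃ C : ℝ, 0 < C ∧ ∃ n₀ : ℕ, ∀ n : ℕ, n₀ ≤ n → ∃ S : ℝ,
      HasSum (fun k : ℕ => ((coeff k F : ℤ) : ℝ) * (((b : ℝ) ^ n)⁻¹) ^ k) S ∧ Irrational S ∧
      (∃ R : Polynomial ℤ, R ≠ 0 ∧ R.natDegree ≤ A ∧ (∀ k, |R.coeff k| ≤ (b : ℤ) ^ (A * n)) ∧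
        Polynomial.aeval S R = 0) ∧
      ∀ q k : ℕ, 1 ≤ q → q ∣ P ^ k → Ctrl b n q C (S / q) := by
  obtain ⟨K, hK1, hK⟩ := growth hF
  obtain ⟨C, hC, hdig⟩ := h3 b P hb hP hbP (fun k => coeff k F) K hK1 hK h0 hk
  obtain ⟨A, hA⟩ := int_rel hF
  obtain ⟨n1, hn1⟩ := hA b hb
  obtain ⟨n2, hn2⟩ := irr hF hr b hb
  refine ⟨A, 2 * C, by positivity, max (max n1 n2) (K + 1), fun n hn => ?_⟩
  have hnn1 : n1 ≤ n := le_trans (le_trans (le_max_left _ _) (le_max_left _ _)) hn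
  have hnn2 : n2 ≤ n := le_trans (le_trans (le_max_right _ _) (le_max_left _ _)) hn
  have hnK : K + 1 ≤ n := le_trans (le_max_right _ _) hn
  have hsm := sm hK hb hnK
  have hev : ev (((b : ℝ) ^ n)⁻¹) (F.map (Int.castRingHom ℚ)) =
      ∑' k, ((coeff k F : ℤ) : ℝ) * (((b : ℝ) ^ n)⁻¹) ^ k := by
    unfold ev
    simp only [coeff_map']
  refine ⟨ev (((b : ℝ) ^ n)⁻¹) (F.map (Int.castRingHom ℚ)), ?_, hn2 n hnn2 hsm,
    hn1 n hnn1 hsm, fun q k hq hqP => ?_⟩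
  · have h1 : Summable fun k : ℕ => ((coeff k F : ℤ) : ℝ) * (((b : ℝ) ^ n)⁻¹) ^ k := by
      have h2 := hsm.of_norm
      refine h2.congr fun k => ?_
      rw [coeff_map']
    rw [hev]
    exact h1.hasSum
  · rw [hev]
    exact ctrl_of_Er (fun y hy0 hy1 s L => hdig n hnK q k hq hqP y hy0 hy1 s L)

theorem roots (h3 : S_DIG3) {b : ℕ} (hb : 2 ≤ b) {d : ℕ} (hd : 2 ≤ d) {p : ℕ} (hp : 1 ≤ p)
    (hpb : Nat.Coprime b p) : ∃ C : ℝ, 0 < C ∧ ∃ n₀ : ℕ, ∀ n : ℕ, n₀ ≤ n → ∀ r k : ℕ, 1 ≤ r → r ∣ p ^ k →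
      (minpoly ℚ ((1 + (d : ℝ) ^ 2 * p / (b : ℝ) ^ n) ^ (1 / (d : ℝ)) / (r : ℝ))).natDegree = d ∧
      Ctrl b n r C ((1 + (d : ℝ) ^ 2 * p / (b : ℝ) ^ n) ^ (1 / (d : ℝ)) / (r : ℝ)) := by
  have hp0 : (p : ℚ) ≠ 0 := by exact_mod_cast (by omega : p ≠ 0)
  have hpR : (0 : ℝ) < p := by exact_mod_cast hp
  have hb0 : (0 : ℝ) < b := by exact_mod_cast (by omega : 0 < b)
  have hb1 : (1 : ℝ) ≤ b := by exact_mod_cast (by omega : 1 ≤ b)
  have hbR : (1 : ℝ) < b := by exact_mod_cast (by omega : 1 < b)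
  have hdR : (0 : ℝ) < d := by exact_mod_cast (by omega : 0 < d)
  obtain ⟨F, hF1, hF2, hF3⟩ := exists_root (d := d) (by omega) (p : ℤ)
  set c : ℚ := (d : ℚ) ^ 2 * p with hc
  have hc0 : c ≠ 0 := by
    rw [hc]
    have : (d : ℚ) ≠ 0 := by exact_mod_cast (by omega : d ≠ 0)
    positivity
  set θ : ℚ⟦X⟧ := F.map (Int.castRingHom ℚ) with hθ
  have hθd : θ ^ d = 1 + C c * X := by
    rw [hθ, ← map_pow, hF1, map_add, map_one, map_mul, PowerSeries.map_C, PowerSeries.map_X]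
    congr 3
    rw [hc]
    simp
  obtain ⟨hmon, hirr⟩ := poly_facts (d := d) (by omega) hc0
  set q : Polynomial (Polynomial ℚ) := Polynomial.X ^ d -
    Polynomial.C (1 + Polynomial.C c * Polynomial.X) with hq
  have hqdeg : q.natDegree = d := Polynomial.natDegree_X_pow_sub_C
  have hroot : Polynomial.aeval θ q = 0 := by
    rw [hq, map_sub, map_pow, Polynomial.aeval_X, Polynomial.aeval_C, hθd,
      Pool.Agent.H609.JT.algebraMap_poly]
    simp
  have hint : IsIntegral (Polynomial ℚ) θ := ⟨q, hmon, hroot⟩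
  have hmin : (minpoly (Polynomial ℚ) θ).natDegree = d := by
    obtain ⟨g, hg⟩ := minpoly.isIntegrallyClosed_dvd hint hroot
    rcases hirr.isUnit_or_isUnit hg with h1 | h1
    · exact absurd h1 (minpoly.not_isUnit _ _)
    · have hg0 : g ≠ 0 := h1.ne_zero
      have h2 := congrArg Polynomial.natDegree hg
      rw [Polynomial.natDegree_mul (minpoly.ne_zero hint) hg0, hqdeg,
        Polynomial.natDegree_eq_zero_of_isUnit h1, add_zero] at h2
      exact h2.symm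
  have hFalg : IsAlgebraic (Polynomial ℚ) (F.map (Int.castRingHom ℚ)) := hint.isAlgebraic
  obtain ⟨K, hK1, hK⟩ := growth hFalg
  have h00 : IsCoprime (coeff 0 F) (p : ℤ) := by
    rw [coeff_zero_eq_constantCoeff_apply, hF2]
    exact isCoprime_one_left
  obtain ⟨C, hC, hdig⟩ := h3 b p hb hp hpb (fun k => coeff k F) K hK1 hK h00 hF3
  obtain ⟨n1, hn1⟩ := Pool.Agent.H609.JT.deg_ge hint b hb
  obtain ⟨n2, hn2⟩ := pow_unbounded_of_one_lt (4 * (K : ℝ) ^ 2) hbR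
  refine ⟨2 * C, by positivity, max (max n1 n2) (K + 1), fun n hn r k hr1 hrk => ?_⟩
  have hnn1 : n1 ≤ n := le_trans (le_trans (le_max_left _ _) (le_max_left _ _)) hn
  have hnn2 : n2 ≤ n := le_trans (le_trans (le_max_right _ _) (le_max_left _ _)) hn
  have hnK : K + 1 ≤ n := le_trans (le_max_right _ _) hn
  have hsm := sm hK hb hnK
  have hB : (0 : ℝ) < (b : ℝ) ^ n := by positivity
  set x : ℝ := ((b : ℝ) ^ n)⁻¹ with hx
  have hx0 : 0 < x := by positivity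
  have hev : ev x (F.map (Int.castRingHom ℚ)) = ∑' k, ((coeff k F : ℤ) : ℝ) * x ^ k := by
    unfold ev
    simp only [coeff_map']
  set S : ℝ := ev x θ with hS
  have hSd : S ^ d = 1 + (d : ℝ) ^ 2 * p / (b : ℝ) ^ n := by
    have h1 : ev x (θ ^ d) = ev x θ ^ d := by
      have := map_pow (evA x) ⟨θ, hsm⟩ d
      exact this
    rw [hS, ← h1, hθd]
    have h2 := ev_poly x (1 + Polynomial.C c * Polynomial.X)
    have h3 : ((1 + Polynomial.C c * Polynomial.X : Polynomial ℚ) : ℚ⟦X⟧) =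
        1 + PowerSeries.C c * PowerSeries.X := by simp
    rw [h3] at h2
    rw [h2]
    simp only [map_add, map_one, map_mul, Polynomial.aeval_C, Polynomial.aeval_X, eq_ratCast, hc,
      Rat.cast_pow, Rat.cast_natCast]
    rw [hx]
    ring
  have hSpos : 0 < S := by
    have hKx : (K : ℝ) * x ≤ 1 / 2 := by
      rw [hx, ← div_eq_mul_inv, div_le_iff₀ hB]
      have := two_mul_le_pow hb hnK
      linarith
    obtain ⟨-, h1⟩ := tail (fun k => ((coeff k F : ℤ) : ℝ)) (by positivity : (0 : ℝ) ≤ K) hx0.le hKx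
      hK 1
    rw [← hev, sum_range_one, pow_zero, mul_one, coeff_zero_eq_constantCoeff_apply, hF2,
      Int.cast_one, pow_one] at h1
    have h2 : 2 * (K : ℝ) ^ (1 + 1) * x ≤ 1 / 2 := by
      rw [hx, ← div_eq_mul_inv, div_le_iff₀ hB]
      have h3 : (b : ℝ) ^ n2 ≤ (b : ℝ) ^ n := pow_le_pow_right₀ hb1 hnn2
      norm_num
      linarith
    have h3 := (abs_le.1 (h1.trans h2)).1
    linarith
  have hSeq : (1 + (d : ℝ) ^ 2 * p / (b : ℝ) ^ n) ^ (1 / (d : ℝ)) = S := by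
    rw [← hSd, ← Real.rpow_natCast, ← Real.rpow_mul hSpos.le, mul_one_div, div_self hdR.ne',
      Real.rpow_one]
  rw [hSeq]
  refine ⟨le_antisymm ?_ ?_, ?_⟩
  · -- the upper bound for the degree
    set g : Polynomial ℚ := Polynomial.X ^ d -
      Polynomial.C ((1 + (d : ℚ) ^ 2 * p / (b : ℚ) ^ n) / (r : ℚ) ^ d) with hg
    have h1 : Polynomial.aeval (S / (r : ℝ)) g = 0 := by
      rw [hg, map_sub, map_pow, Polynomial.aeval_X, Polynomial.aeval_C, div_pow, hSd, eq_ratCast]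
      push_cast
      ring
    have h2 := Polynomial.natDegree_le_of_dvd (minpoly.dvd ℚ _ h1)
      (Polynomial.monic_X_pow_sub_C _ (by omega)).ne_zero
    rwa [hg, Polynomial.natDegree_X_pow_sub_C] at h2
  · have hSint : IsIntegral ℚ S := by
      refine ⟨Polynomial.X ^ d - Polynomial.C (1 + (d : ℚ) ^ 2 * p / (b : ℚ) ^ n),
        Polynomial.monic_X_pow_sub_C _ (by omega), ?_⟩
      rw [Polynomial.eval₂_sub, Polynomial.eval₂_X_pow, Polynomial.eval₂_C, hSd, eq_ratCast]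
      push_cast
      ring
    have h1 := hn1 n hnn1 hsm
    rw [hmin] at h1
    have h2 := degree_div hSint (r : ℚ) (by exact_mod_cast (by omega : r ≠ 0))
    push_cast at h2
    exact h1.trans h2
  · have h1 : S = ∑' k, ((coeff k F : ℤ) : ℝ) * x ^ k := hev
    rw [h1]
    exact ctrl_of_Er (fun y hy0 hy1 s L => hdig n hnK r k hr1 hrk y hy0 hy1 s L)

end Pool.Agent.H609.EN
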